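import Pool.Agent.Helper44.GF.Defs
import Pool.Agent.Helper86.LP.Base

open Finset MeasureTheory Filter Topology
open scoped ENNReal ContDiff

namespace Pool.Agent.Helper44.GF

theorem link_gauss_int (m : ℕ) :
    Integrable (fun y : Fin m → ℝ => Real.exp (-∑ j, y j ^ 2)) := by
  have h1 : ∀ j : Fin m, Integrable (fun x : ℝ => Real.exp (-(1 : ℝ) * x ^ 2)) := fun _ =>
    integrable_exp_neg_mul_sq one_pos
  have h2 := Integrable.fintype_prod (μ := fun _ : Fin m => (volume : Measure ℝ))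
    (f := fun (_ : Fin m) (x : ℝ) => Real.exp (-(1 : ℝ) * x ^ 2)) h1
  refine h2.congr (Filter.Eventually.of_forall fun y => ?_)
  show ∏ j, Real.exp (-(1 : ℝ) * y j ^ 2) = Real.exp (-∑ j, y j ^ 2)
  rw [← Real.exp_sum, ← Finset.sum_neg_distrib]
  simp only [neg_mul, one_mul]

theorem link_gauss_pos (m : ℕ) : 0 < ∫ y : Fin m → ℝ, Real.exp (-∑ j, y j ^ 2) :=
  integral_exp_pos (link_gauss_int m)

theorem link_gauss {n m : ℕ} (V : Matrix (Fin n) (Fin m) ℝ) (hV : Function.Injective V.mulVec)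
    (τ : Fin n → ℝ) (hτ : ∀ i, 0 < τ i) :
    Integrable (fun y : Fin m → ℝ => Real.exp (-∑ i, τ i * (V.mulVec y i) ^ 2)) ∧
    0 < (V.transpose * Matrix.diagonal τ * V).det ∧
    ∫ y : Fin m → ℝ, Real.exp (-∑ i, τ i * (V.mulVec y i) ^ 2)
      = (V.transpose * Matrix.diagonal τ * V).det ^ (-(1 / 2) : ℝ)
        * ∫ y : Fin m → ℝ, Real.exp (-∑ j, y j ^ 2) := by
  have h0 : ∀ i, Real.exp (Real.log (τ i)) = τ i := fun i => Real.exp_log (hτ i)
  have h1 := Pool.Agent.Helper86.LP.gaussian V hV (fun i => Real.log (τ i))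
  have h2 := (Pool.Agent.Helper86.LP.posDef_form V hV (fun i => Real.log (τ i))).det_pos
  simp only [h0] at h1 h2
  have hmeas : Measurable (fun y : Fin m → ℝ => Real.exp (-∑ i, τ i * (V.mulVec y i) ^ 2)) := by
    have : Continuous (fun y : Fin m → ℝ => Real.exp (-∑ i, τ i * (V.mulVec y i) ^ 2)) := by
      unfold Matrix.mulVec dotProduct
      fun_prop
    exact this.measurable
  have hG := ofReal_integral_eq_lintegral_ofReal (link_gauss_int m)
    (Filter.Eventually.of_forall fun y => (Real.exp_pos _).le)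
  rw [← hG, ← ENNReal.ofReal_mul (Real.rpow_nonneg h2.le _)] at h1
  have hint : Integrable (fun y : Fin m → ℝ => Real.exp (-∑ i, τ i * (V.mulVec y i) ^ 2)) := by
    refine ⟨hmeas.aestronglyMeasurable, ?_⟩
    rw [hasFiniteIntegral_iff_ofReal (Filter.Eventually.of_forall fun y => (Real.exp_pos _).le), h1]
    exact ENNReal.ofReal_lt_top
  refine ⟨hint, h2, ?_⟩
  rw [integral_eq_lintegral_of_nonneg_ae (Filter.Eventually.of_forall fun y => (Real.exp_pos _).le)
    hmeas.aestronglyMeasurable, h1, ENNReal.toReal_ofReal]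
  exact mul_nonneg (Real.rpow_nonneg h2.le _) (link_gauss_pos m).le

theorem link_pol {n m : ℕ} (V : Matrix (Fin n) (Fin m) ℝ) (τ : Fin n → ℝ) :
    pol (fun f : Fin m ↪ Fin n => univ.map f) (fun f => (V.submatrix f id).det ^ 2) τ
      = (Nat.factorial m : ℝ) * (V.transpose * Matrix.diagonal τ * V).det := by
  rw [Pool.Agent.Helper86.LP.cauchy_binet]
  unfold pol
  have h1 : ∀ f : Fin m ↪ Fin n, (V.submatrix f id).det ^ 2 * ∏ i ∈ univ.map f, τ i
      = (∏ a, τ (f a)) * (V.submatrix f id).det ^ 2 := by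
    intro f
    rw [Finset.prod_map]
    ring
  rw [Finset.sum_congr rfl fun f _ => h1 f]
  refine Fintype.sum_of_injective (fun f : Fin m ↪ Fin n => (f : Fin m → Fin n))
    DFunLike.coe_injective _ _ ?_ fun f => rfl
  intro f hf
  have h2 : ¬ Function.Injective f := fun h => hf ⟨⟨f, h⟩, rfl⟩
  unfold Function.Injective at h2
  push Not at h2
  obtain ⟨a, b, hab, hne⟩ := h2
  have h3 : (V.submatrix f id).det = 0 :=
    Matrix.det_zero_of_row_eq hne (by
      funext j
      simp only [Matrix.submatrix_apply, hab])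
  rw [h3]
  ring

theorem link_sum_mem {n : ℕ} {Y : Type} [Fintype Y] [DecidableEq Y] (E : Fin n → ℝ) (r : Y → ℝ)
    (d : ℝ) (η : Finset (Fin n × Y)) :
    ∑ i, tau d r η i * E i = d * ∑ i, E i + ∑ x ∈ η, E x.1 * r x.2 := by
  have h1 : ∑ x ∈ η, E x.1 * r x.2 = ∑ x : Fin n × Y, if x ∈ η then E x.1 * r x.2 else 0 := by
    rw [← Finset.sum_filter]
    simp
  rw [h1, Fintype.sum_prod_type, Finset.mul_sum, ← Finset.sum_add_distrib]
  refine Finset.sum_congr rfl fun i _ => ?_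
  unfold tau
  rw [add_mul, Finset.sum_mul]
  congr 1
  refine Finset.sum_congr rfl fun y _ => ?_
  split_ifs
  · ring
  · ring

theorem link_exp {n : ℕ} {Y : Type} [Fintype Y] [DecidableEq Y] (r z : Y → ℝ) (d : ℝ)
    (hz : ∀ y, 0 < z y) (u : Fin n → ℝ) :
    Real.exp (-∑ i, lam d r z (u i))
      = (∏ x : Fin n × Y, (1 + z x.2))⁻¹ * ∑ η : Finset (Fin n × Y), (∏ x ∈ η, z x.2)
        * Real.exp (-∑ i, tau d r η i * u i) := by
  have h1 : ∀ v : ℝ, Real.exp (-lam d r z v)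
      = Real.exp (-(d * v)) * ∏ y, ((1 + z y)⁻¹ * (1 + z y * Real.exp (-(v * r y)))) := by
    intro v
    unfold lam
    rw [neg_add, Real.exp_add, ← Finset.sum_neg_distrib, Real.exp_sum]
    congr 1
    refine Finset.prod_congr rfl fun y _ => ?_
    have hp : 0 < (1 + z y) / (1 + z y * Real.exp (-(v * r y))) :=
      div_pos (by linarith [hz y]) (by linarith [mul_pos (hz y) (Real.exp_pos (-(v * r y)))])
    rw [← Real.log_inv, Real.exp_log (inv_pos.2 hp), inv_div, div_eq_inv_mul]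
  rw [← Finset.sum_neg_distrib, Real.exp_sum, Finset.prod_congr rfl fun i _ => h1 (u i),
    Finset.prod_mul_distrib, ← Real.exp_sum]
  have h2 : ∏ i, ∏ y, ((1 + z y)⁻¹ * (1 + z y * Real.exp (-(u i * r y))))
      = (∏ x : Fin n × Y, (1 + z x.2))⁻¹ * ∏ x : Fin n × Y, (1 + z x.2
        * Real.exp (-(u x.1 * r x.2))) := by
    rw [← Finset.prod_inv_distrib, ← Finset.prod_mul_distrib, Fintype.prod_prod_type]
  have h3 : ∏ x : Fin n × Y, (1 + z x.2 * Real.exp (-(u x.1 * r x.2)))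
      = ∑ η : Finset (Fin n × Y), ∏ x ∈ η, z x.2 * Real.exp (-(u x.1 * r x.2)) := by
    rw [Finset.prod_one_add, Finset.powerset_univ]
  rw [h2, h3, mul_left_comm]
  congr 1
  rw [Finset.mul_sum]
  refine Finset.sum_congr rfl fun η _ => ?_
  rw [Finset.prod_mul_distrib, mul_left_comm, ← Real.exp_sum, ← Real.exp_add, link_sum_mem,
    Finset.mul_sum, neg_add, ← Finset.sum_neg_distrib, ← Finset.sum_neg_distrib]

theorem st_LINK : ST_LINK := by
  intro n m Y _ _ r z d hr hz hd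
  set Z : ℝ := ∏ x : Fin n × Y, (1 + z x.2) with hZ
  have hZp : 0 < Z := Finset.prod_pos fun x _ => by linarith [hz x.2]
  set G : ℝ := ∫ y : Fin m → ℝ, Real.exp (-∑ j, y j ^ 2) with hG
  have hGp : 0 < G := link_gauss_pos m
  have hf : (0 : ℝ) < (Nat.factorial m : ℝ) := by positivity
  refine ⟨Z⁻¹ * (G * (Nat.factorial m : ℝ) ^ (1 / 2 : ℝ)),
    mul_pos (inv_pos.2 hZp) (mul_pos hGp (Real.rpow_pos_of_pos hf _)), ?_⟩
  intro V hV
  have hτ : ∀ (η : Finset (Fin n × Y)) i, 0 < tau d r η i := by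
    intro η i
    unfold tau
    refine add_pos_of_pos_of_nonneg hd (Finset.sum_nonneg fun y _ => ?_)
    split_ifs
    · exact (hr y).le
    · exact le_rfl
  have h1 := fun η : Finset (Fin n × Y) => link_gauss V hV (tau d r η) (hτ η)
  unfold MM
  have h2 : ∀ t : Fin m → ℝ, Real.exp (-∑ i, lam d r z ((V.mulVec t i) ^ 2))
      = Z⁻¹ * ∑ η : Finset (Fin n × Y), (∏ x ∈ η, z x.2)
        * Real.exp (-∑ i, tau d r η i * (V.mulVec t i) ^ 2) := fun t =>
    link_exp r z d hz fun i => (V.mulVec t i) ^ 2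
  simp only [h2]
  rw [integral_const_mul, integral_finsetSum _ fun η _ => (h1 η).1.const_mul _, mul_assoc]
  congr 1
  unfold Fq
  rw [Finset.mul_sum]
  refine Finset.sum_congr rfl fun η _ => ?_
  rw [integral_const_mul, (h1 η).2.2, link_pol, Real.mul_rpow hf.le (h1 η).2.1.le]
  have h3 : (Nat.factorial m : ℝ) ^ (1 / 2 : ℝ) * (Nat.factorial m : ℝ) ^ (-(1 / 2) : ℝ) = 1 := by
    rw [← Real.rpow_add hf]
    norm_num
  calc (∏ x ∈ η, z x.2) * ((V.transpose * Matrix.diagonal (tau d r η) * V).det ^ (-(1 / 2) : ℝ) * G)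
      = (∏ x ∈ η, z x.2) * ((V.transpose * Matrix.diagonal (tau d r η) * V).det ^ (-(1 / 2) : ℝ)
        * G) * ((Nat.factorial m : ℝ) ^ (1 / 2 : ℝ) * (Nat.factorial m : ℝ) ^ (-(1 / 2) : ℝ)) := by
        rw [h3, mul_one]
    _ = _ := by ring

end Pool.Agent.Helper44.GF
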