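import Pool.Agent.Helper44.GF.Defs

open Finset MeasureTheory Filter Topology
open scoped ENNReal ContDiff

namespace Pool.Agent.Helper44.GF

section

variable {n : ℕ} {Y ι : Type} [Fintype Y] [DecidableEq Y] [Fintype ι]

theorem ener_cs (S : ι → Finset (Fin n)) (ξ e : ι → ℝ) (τ : Fin n → ℝ) (hτ : ∀ i, 0 ≤ τ i)
    (i : Fin n) :
    A1 S (fun I => ξ I * e I) τ i ^ 2
      ≤ A1 S (fun I => ξ I ^ 2) τ i * A1 S (fun I => e I ^ 2) τ i := by
  unfold A1
  apply Finset.sum_sq_le_sum_mul_sum_of_sq_le_mul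
  · intro I _
    split_ifs
    · exact mul_nonneg (sq_nonneg _) (Finset.prod_nonneg fun k _ => hτ k)
    · exact le_rfl
  · intro I _
    split_ifs
    · exact mul_nonneg (sq_nonneg _) (Finset.prod_nonneg fun k _ => hτ k)
    · exact le_rfl
  · intro I _
    split_ifs
    · apply le_of_eq
      ring
    · simp

theorem ener_A1_nonneg (S : ι → Finset (Fin n)) (e : ι → ℝ) (τ : Fin n → ℝ) (hτ : ∀ i, 0 ≤ τ i)
    (i : Fin n) : 0 ≤ A1 S (fun I => e I ^ 2) τ i := by
  unfold A1
  refine Finset.sum_nonneg fun I _ => ?_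
  split_ifs
  · exact mul_nonneg (sq_nonneg _) (Finset.prod_nonneg fun k _ => hτ k)
  · exact le_rfl

theorem ener_sum_mem (E : Fin n → ℝ) (r : Y → ℝ) (d : ℝ) (η : Finset (Fin n × Y)) :
    ∑ x ∈ η, r x.2 * E x.1 = ∑ i, E i * (tau d r η i - d) := by
  have h1 : ∑ x ∈ η, r x.2 * E x.1 = ∑ x : Fin n × Y, if x ∈ η then r x.2 * E x.1 else 0 := by
    rw [← Finset.sum_filter]
    simp
  rw [h1, Fintype.sum_prod_type]
  refine Finset.sum_congr rfl fun i _ => ?_
  unfold tau
  rw [add_sub_cancel_left, Finset.mul_sum]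
  refine Finset.sum_congr rfl fun y _ => ?_
  split_ifs
  · ring
  · ring

end

theorem st_ENER (hGNZ : ST_GNZ) (hMF1 : ST_MF1) (hMF2 : ST_MF2) (hMF3 : ST_MF3) : ST_ENER := by
  intro n m Y ι _ _ _ S ξ e r z d s hMH
  obtain ⟨hins, hcomp, -, -, -⟩ := hMF2 n m Y ι S (fun I => ξ I ^ 2) r z d hMH.hS
  have hMF3' := hMF3 n m Y ι S (fun I => ξ I ^ 2) r z d s hMH
  have hE1 : ∀ τ : Fin n → ℝ, ∀ i (c : ℝ), pol S (fun I => ξ I * e I) (Function.update τ i (τ i + c))
      = pol S (fun I => ξ I * e I) τ + c * A1 S (fun I => ξ I * e I) τ i := fun τ =>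
    (hMF1 n m ι S (fun I => ξ I * e I) hMH.hS τ).1
  have hE2 : ∀ τ : Fin n → ℝ, ∀ i (c : ℝ), A1 S (fun I => e I ^ 2) (Function.update τ i (τ i + c)) i
      = A1 S (fun I => e I ^ 2) τ i := by
    intro τ i c
    obtain ⟨-, h2, -, -, h5, -, -⟩ := hMF1 n m ι S (fun I => e I ^ 2) hMH.hS τ
    rw [h2 i i c, h5 i, mul_zero, add_zero]
  have hE3 : ∀ τ : Fin n → ℝ, ∑ i, τ i * A1 S (fun I => e I ^ 2) τ i
      = m * pol S (fun I => e I ^ 2) τ := by
    intro τ
    obtain ⟨-, -, -, -, -, -, h7⟩ := hMF1 n m ι S (fun I => e I ^ 2) hMH.hS τ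
    exact h7
  set W := wt S (fun I => ξ I ^ 2) d r z with hW
  set b := bet S (fun I => ξ I ^ 2) d r z with hb
  have hτ0 : ∀ η : Finset (Fin n × Y), ∀ i, 0 ≤ tau d r η i := fun η i =>
    hMH.hd.le.trans ((hMF3' η).1 i)
  have hEn : ∀ η : Finset (Fin n × Y), ∀ i, 0 ≤ A1 S (fun I => e I ^ 2) (tau d r η) i := fun η i =>
    ener_A1_nonneg S e _ (hτ0 η) i
  have hWp : ∀ η, 0 < W η := fun η => (hMF3' η).2.2.2.1
  have hbp : ∀ η x, 0 < b η x := fun η x => (hMF3' η).2.2.2.2.1 x
  -- the generalized Mecke formula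
  have hG := hGNZ (Fin n × Y) W b hcomp
    (fun η x => r x.2 * A1 S (fun I => e I ^ 2) (tau d r η) x.1)
  have hG1 : ∀ η : Finset (Fin n × Y), ∑ y ∈ η, (r y.2 * A1 S (fun I => e I ^ 2)
      (tau d r (η.erase y)) y.1)
      = ∑ i, A1 S (fun I => e I ^ 2) (tau d r η) i * (tau d r η i - d) := by
    intro η
    rw [← ener_sum_mem]
    refine Finset.sum_congr rfl fun y hy => ?_
    congr 1
    have h1 := hins (η.erase y) y (Finset.notMem_erase y η)
    rw [Finset.insert_erase hy] at h1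
    rw [h1, hE2]
  -- pointwise bound
  have hpt : ∀ η : Finset (Fin n × Y),
      ∑ x ∈ ηᶜ, b η x * dd (fun η => pol S (fun I => ξ I * e I) (tau d r η)) η x ^ 2
        ≤ s * (∑ i, A1 S (fun I => e I ^ 2) (tau d r η) i * tau d r η i
          + ∑ x ∈ ηᶜ, b η x * (r x.2 * A1 S (fun I => e I ^ 2) (tau d r η) x.1)) := by
    intro η
    set A : Fin n → ℝ := A1 S (fun I => ξ I ^ 2) (tau d r η) with hA
    set E : Fin n → ℝ := A1 S (fun I => e I ^ 2) (tau d r η) with hE
    have hAp : ∀ i, 0 < A i := (hMF3' η).2.1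
    have h1 : ∑ x ∈ ηᶜ, b η x * dd (fun η => pol S (fun I => ξ I * e I) (tau d r η)) η x ^ 2
        ≤ ∑ x ∈ ηᶜ, z x.2 * Real.exp (-(A x.1 * r x.2)) * r x.2 ^ 2 * (A x.1 * E x.1) := by
      refine Finset.sum_le_sum fun x hx => ?_
      have hx' : x ∉ η := Finset.mem_compl.1 hx
      have h2 : dd (fun η => pol S (fun I => ξ I * e I) (tau d r η)) η x
          = r x.2 * A1 S (fun I => ξ I * e I) (tau d r η) x.1 := by
        show pol S (fun I => ξ I * e I) (tau d r (insert x η))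
          - pol S (fun I => ξ I * e I) (tau d r η) = _
        rw [hins η x hx', hE1]
        ring
      have h3 : b η x = z x.2 * Real.exp (-(A x.1 * r x.2)) := by
        rw [hb, hA]
        unfold bet
        rw [mul_comm (r x.2)]
      rw [h2, h3, mul_pow, ← mul_assoc]
      refine mul_le_mul_of_nonneg_left (ener_cs S ξ e _ (hτ0 η) x.1) ?_
      exact mul_nonneg (mul_nonneg (hMH.hz _).le (Real.exp_pos _).le) (sq_nonneg _)
    have h4 : ∑ x ∈ ηᶜ, z x.2 * Real.exp (-(A x.1 * r x.2)) * r x.2 ^ 2 * (A x.1 * E x.1)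
        ≤ ∑ i, E i * (A i * ∑ y, z y * r y ^ 2 * Real.exp (-(A i * r y))) := by
      have h5 : ∑ x ∈ ηᶜ, z x.2 * Real.exp (-(A x.1 * r x.2)) * r x.2 ^ 2 * (A x.1 * E x.1)
          ≤ ∑ x : Fin n × Y, z x.2 * Real.exp (-(A x.1 * r x.2)) * r x.2 ^ 2
            * (A x.1 * E x.1) := by
        refine Finset.sum_le_sum_of_subset_of_nonneg (Finset.subset_univ _) fun x _ _ => ?_
        exact mul_nonneg (mul_nonneg (mul_nonneg (hMH.hz _).le (Real.exp_pos _).le) (sq_nonneg _))
          (mul_nonneg (hAp _).le (hEn η _))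
      refine h5.trans (le_of_eq ?_)
      rw [Fintype.sum_prod_type]
      refine Finset.sum_congr rfl fun i _ => ?_
      rw [Finset.mul_sum, Finset.mul_sum]
      refine Finset.sum_congr rfl fun y _ => ?_
      show z y * Real.exp (-(A i * r y)) * r y ^ 2 * (A i * E i)
        = E i * (A i * (z y * r y ^ 2 * Real.exp (-(A i * r y))))
      ring
    have h6 : ∑ i, E i * (A i * ∑ y, z y * r y ^ 2 * Real.exp (-(A i * r y)))
        ≤ ∑ i, E i * (s * m1 d r z (A i)) :=
      Finset.sum_le_sum fun i _ => mul_le_mul_of_nonneg_left (hMH.h1 (A i) (hAp i)) (hEn η i)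
    have h7 : ∀ i, m1 d r z (A i) ≤ tau d r η i
        + ∑ y, if (i, y) ∈ ηᶜ then b η (i, y) * r y else 0 := by
      intro i
      unfold m1 tau
      rw [add_assoc, ← Finset.sum_add_distrib]
      refine add_le_add le_rfl (Finset.sum_le_sum fun y _ => ?_)
      by_cases hy : (i, y) ∈ η
      · have hy' : (i, y) ∉ ηᶜ := fun h => (Finset.mem_compl.1 h) hy
        rw [if_pos hy, if_neg hy', add_zero]
        have h8 : Real.exp (-(A i * r y)) ≤ 1 := by
          rw [Real.exp_le_one_iff]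
          have := mul_pos (hAp i) (hMH.hr y)
          linarith
        have h9 : z y * r y ≤ r y := by
          have := mul_le_mul_of_nonneg_right (hMH.hz1 y) (hMH.hr y).le
          linarith
        calc z y * r y * Real.exp (-(A i * r y)) ≤ z y * r y * 1 :=
              mul_le_mul_of_nonneg_left h8 (mul_nonneg (hMH.hz y).le (hMH.hr y).le)
          _ ≤ r y := by rw [mul_one]; exact h9
      · have hy' : (i, y) ∈ ηᶜ := Finset.mem_compl.2 hy
        rw [if_neg hy, if_pos hy', zero_add]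
        have h3 : b η (i, y) = z y * Real.exp (-(r y * A i)) := by
          rw [hb, hA]
          rfl
        rw [h3, mul_comm (A i)]
        apply le_of_eq
        ring
    have h10 : ∑ i, E i * (s * m1 d r z (A i))
        ≤ ∑ i, E i * (s * (tau d r η i + ∑ y, if (i, y) ∈ ηᶜ then b η (i, y) * r y else 0)) :=
      Finset.sum_le_sum fun i _ => mul_le_mul_of_nonneg_left
        (mul_le_mul_of_nonneg_left (h7 i) hMH.hs.le) (hEn η i)
    have h11 : ∑ x ∈ ηᶜ, b η x * (r x.2 * E x.1)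
        = ∑ i, E i * ∑ y, if (i, y) ∈ ηᶜ then b η (i, y) * r y else 0 := by
      have h12 : ∑ x ∈ ηᶜ, b η x * (r x.2 * E x.1)
          = ∑ x : Fin n × Y, if x ∈ ηᶜ then b η x * (r x.2 * E x.1) else 0 := by
        rw [← Finset.sum_filter]
        congr 1
        ext x
        simp
      rw [h12, Fintype.sum_prod_type]
      refine Finset.sum_congr rfl fun i _ => ?_
      rw [Finset.mul_sum]
      refine Finset.sum_congr rfl fun y _ => ?_
      by_cases h : (i, y) ∈ ηᶜ
      · rw [if_pos h, if_pos h]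
        ring
      · rw [if_neg h, if_neg h, mul_zero]
    refine h1.trans (h4.trans (h6.trans (h10.trans (le_of_eq ?_))))
    rw [h11, ← Finset.sum_add_distrib, Finset.mul_sum]
    refine Finset.sum_congr rfl fun i _ => ?_
    ring
  have hsum : dir W b (fun η => pol S (fun I => ξ I * e I) (tau d r η))
      ≤ s * (∑ η, W η * ∑ i, A1 S (fun I => e I ^ 2) (tau d r η) i * tau d r η i
        + ∑ η, W η * ∑ x ∈ ηᶜ, b η x * (r x.2 * A1 S (fun I => e I ^ 2) (tau d r η) x.1)) := by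
    unfold dir
    rw [← Finset.sum_add_distrib, Finset.mul_sum]
    refine Finset.sum_le_sum fun η _ => ?_
    have := mul_le_mul_of_nonneg_left (hpt η) (hWp η).le
    refine this.trans (le_of_eq ?_)
    ring
  have hG2 : ∑ η, W η * ∑ x ∈ ηᶜ, b η x * (r x.2 * A1 S (fun I => e I ^ 2) (tau d r η) x.1)
      ≤ ∑ η, W η * ∑ i, A1 S (fun I => e I ^ 2) (tau d r η) i * tau d r η i := by
    rw [← hG]
    refine Finset.sum_le_sum fun η _ => mul_le_mul_of_nonneg_left ?_ (hWp η).le
    rw [hG1]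
    refine Finset.sum_le_sum fun i _ => mul_le_mul_of_nonneg_left ?_ (hEn η i)
    linarith [hMH.hd]
  have hfin : ∑ η, W η * ∑ i, A1 S (fun I => e I ^ 2) (tau d r η) i * tau d r η i
      = m * ∑ η, W η * pol S (fun I => e I ^ 2) (tau d r η) := by
    rw [Finset.mul_sum]
    refine Finset.sum_congr rfl fun η _ => ?_
    have h := hE3 (tau d r η)
    have h' : ∑ i, A1 S (fun I => e I ^ 2) (tau d r η) i * tau d r η i
        = m * pol S (fun I => e I ^ 2) (tau d r η) := by
      rw [← h]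
      exact Finset.sum_congr rfl fun i _ => mul_comm _ _
    rw [h']
    ring
  rw [hfin] at hsum hG2
  have h20 := mul_le_mul_of_nonneg_left hG2 hMH.hs.le
  calc dir W b (fun η => pol S (fun I => ξ I * e I) (tau d r η))
      ≤ _ := hsum
    _ ≤ s * (m * ∑ η, W η * pol S (fun I => e I ^ 2) (tau d r η))
        + s * (m * ∑ η, W η * pol S (fun I => e I ^ 2) (tau d r η)) := by
          rw [mul_add]
          exact add_le_add le_rfl h20
    _ = _ := by ring

end Pool.Agent.Helper44.GF
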